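import Mathlib

/-!
# Shifted Douglas-Rachford iterates for two balls converge

For two closed balls `A`, `B` of a Euclidean space, with Douglas-Rachford operator `T` and minimal
displacement vector `v`, the sequence `T^n x + n v` converges for every starting point `x`.

Proof. If the balls meet, then `v = 0` and this is the theorem of Krasnoselskii, Mann and Opial. If they
are disjoint, let `u` be the vector joining the centres. All points `a* + t u` (`t ≥ 0`, `a*` the point
of `A` nearest to `B`) satisfy `T^n y = y - n v`, so the distances of `y_n = T^n x + n v` to them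
converge; hence the component of `y_n` along the axis and its distance to the axis converge. The whole
sequence stays in the plane (or line) spanned by the axis and `x`, so `y_n` is determined by these two
numbers and a sign, and `y_{n+1} - y_n → 0`, so that the sign is eventually constant unless `y_n`
tends to the axis.
-/

set_option autoImplicit false

open Filter Topology Metric
open scoped InnerProductSpace

namespace Pool.Agent.Results.MP_ef197a_an.TwoBalls

/-- Euclidean space of dimension `d`. -/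
abbrev E (d : ℕ) := EuclideanSpace ℝ (Fin d)

open Classical in
/-- The nearest-point projection onto `C`: a point of `C` nearest to `x` (it exists and is
unique if `C` is nonempty, closed and convex; junk value `x` if there is none). -/
noncomputable def proj {d : ℕ} (C : Set (E d)) (x : E d) : E d :=
  if h : ∃ p ∈ C, ∀ q ∈ C, dist x p ≤ dist x q then h.choose else x

/-- The reflector `2 P_C - Id`. -/
noncomputable def reflector {d : ℕ} (C : Set (E d)) (x : E d) : E d := (2 : ℝ) • proj C x - x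

/-- The Douglas-Rachford operator `(Id + R_B R_A) / 2` of the pair `(A, B)`. -/
noncomputable def DR {d : ℕ} (A B : Set (E d)) (x : E d) : E d :=
  (1 / 2 : ℝ) • (x + reflector B (reflector A x))

/-- `v` is an element of least norm of the closure of the range of `Id - T`. -/
def IsMinDisplacement {d : ℕ} (T : E d → E d) (v : E d) : Prop :=
  v ∈ closure (Set.range fun x => x - T x) ∧
    ∀ w ∈ closure (Set.range fun x => x - T x), ‖v‖ ≤ ‖w‖

section general

variable {d : ℕ}

/-- The variational characterisation of a nearest point. -/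
def IsVar (C : Set (E d)) (x p : E d) : Prop := p ∈ C ∧ ∀ q ∈ C, ⟪x - p, q - p⟫_ℝ ≤ 0

lemma isVar_unique {C : Set (E d)} {x p q : E d} (hp : IsVar C x p) (hq : IsVar C x q) : p = q := by
  have h1 := hp.2 q hq.1
  have h2 := hq.2 p hp.1
  have h3 : ⟪q - p, q - p⟫_ℝ ≤ 0 := by
    have e : ⟪q - p, q - p⟫_ℝ = ⟪x - p, q - p⟫_ℝ + ⟪x - q, p - q⟫_ℝ := by
      have : p - q = -(q - p) := by abel
      rw [this, inner_neg_right, ← sub_eq_add_neg, ← inner_sub_left]
      congr 1
      abel
    rw [e]; linarith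
  have h4 : q - p = 0 := by
    have := real_inner_self_nonneg (x := q - p)
    exact inner_self_eq_zero.1 (le_antisymm h3 this)
  exact (sub_eq_zero.1 h4).symm

lemma isVar_nearest {C : Set (E d)} {x p : E d} (hp : IsVar C x p) :
    ∀ q ∈ C, dist x p ≤ dist x q := by
  intro q hq
  have h := hp.2 q hq
  rw [dist_eq_norm, dist_eq_norm]
  have e : ‖x - q‖ ^ 2 = ‖x - p‖ ^ 2 - 2 * ⟪x - p, q - p⟫_ℝ + ‖q - p‖ ^ 2 := by
    rw [← norm_sub_sq_real]
    congr 2
    abel
  have h2 : ‖x - p‖ ^ 2 ≤ ‖x - q‖ ^ 2 := by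
    rw [e]; nlinarith [sq_nonneg ‖q - p‖]
  exact (sq_le_sq₀ (norm_nonneg _) (norm_nonneg _)).1 h2

lemma isVar_of_nearest {C : Set (E d)} (hC : Convex ℝ C) {x p : E d} (hp : p ∈ C)
    (h : ∀ q ∈ C, dist x p ≤ dist x q) : IsVar C x p := by
  refine ⟨hp, ?_⟩
  have : ‖x - p‖ = ⨅ w : C, ‖x - w‖ := by
    have hne : Nonempty C := ⟨⟨p, hp⟩⟩
    apply le_antisymm
    · exact le_ciInf fun w => by simpa [dist_eq_norm] using h w w.2
    · exact ciInf_le (f := fun w : C => ‖x - w‖) ⟨0, by rintro _ ⟨w, rfl⟩; exact norm_nonneg _⟩ ⟨p, hp⟩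
  exact (norm_eq_iInf_iff_real_inner_le_zero hC hp).1 this

lemma proj_eq {C : Set (E d)} (hC : Convex ℝ C) {x p : E d} (hp : IsVar C x p) : proj C x = p := by
  have h : ∃ p ∈ C, ∀ q ∈ C, dist x p ≤ dist x q := ⟨p, hp.1, isVar_nearest hp⟩
  unfold proj
  rw [dif_pos h]
  exact isVar_unique (isVar_of_nearest hC h.choose_spec.1 h.choose_spec.2) hp

/-- a point which is nearest in `C` to each point -/
def IsP (C : Set (E d)) : Prop := ∀ x, IsVar C x (proj C x)

/-- contraction factor of the projection onto a ball -/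
noncomputable def fac (r N : ℝ) : ℝ := if N ≤ r then 1 else r / N

lemma isVar_ball (a : E d) {r : ℝ} (hr : 0 ≤ r) (x : E d) :
    IsVar (closedBall a r) x (a + fac r ‖x - a‖ • (x - a)) := by
  unfold fac
  split_ifs with h
  · rw [one_smul, add_sub_cancel]
    refine ⟨by rwa [mem_closedBall, dist_eq_norm], fun q _ => by simp⟩
  · push Not at h
    have hN : 0 < ‖x - a‖ := lt_of_le_of_lt hr h
    refine ⟨?_, ?_⟩
    · rw [mem_closedBall, dist_eq_norm, add_sub_cancel_left, norm_smul, Real.norm_eq_abs,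
        abs_of_nonneg (by positivity), div_mul_cancel₀ _ hN.ne']
    · intro q hq
      rw [mem_closedBall, dist_eq_norm] at hq
      have e1 : x - (a + (r / ‖x - a‖) • (x - a)) = (1 - r / ‖x - a‖) • (x - a) := by
        rw [sub_smul, one_smul]; abel
      have e2 : q - (a + (r / ‖x - a‖) • (x - a)) = (q - a) - (r / ‖x - a‖) • (x - a) := by abel
      rw [e1, e2, real_inner_smul_left, inner_sub_right, real_inner_smul_right,
        real_inner_self_eq_norm_sq]
      have h1 : ⟪x - a, q - a⟫_ℝ ≤ ‖x - a‖ * r :=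
        (real_inner_le_norm _ _).trans (mul_le_mul_of_nonneg_left hq (norm_nonneg _))
      have h2 : r / ‖x - a‖ * ‖x - a‖ ^ 2 = r * ‖x - a‖ := by
        field_simp
      have h3 : 0 ≤ 1 - r / ‖x - a‖ := by
        rw [sub_nonneg, div_le_one hN]; exact h.le
      rw [h2]
      exact mul_nonpos_of_nonneg_of_nonpos h3 (by linarith)

lemma proj_ball (a : E d) {r : ℝ} (hr : 0 ≤ r) (x : E d) :
    proj (closedBall a r) x = a + fac r ‖x - a‖ • (x - a) :=
  proj_eq (convex_closedBall a r) (isVar_ball a hr x)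

lemma isP_ball (a : E d) {r : ℝ} (hr : 0 ≤ r) : IsP (closedBall a r) := by
  intro x
  rw [proj_ball a hr]
  exact isVar_ball a hr x

lemma proj_firm {C : Set (E d)} (hC : IsP C) (x y : E d) :
    ‖proj C x - proj C y‖ ^ 2 ≤ ⟪x - y, proj C x - proj C y⟫_ℝ := by
  have h1 := (hC x).2 _ (hC y).1
  have h2 := (hC y).2 _ (hC x).1
  set p := proj C x
  set q := proj C y
  have e : ⟪x - p, q - p⟫_ℝ + ⟪y - q, p - q⟫_ℝ = ‖p - q‖ ^ 2 - ⟪x - y, p - q⟫_ℝ := by
    rw [← real_inner_self_eq_norm_sq]
    simp only [inner_sub_left, inner_sub_right, real_inner_comm]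
    ring
  linarith

lemma reflector_nonexp {C : Set (E d)} (hC : IsP C) (x y : E d) :
    ‖reflector C x - reflector C y‖ ≤ ‖x - y‖ := by
  have h := proj_firm hC x y
  unfold reflector
  set p := proj C x
  set q := proj C y
  have e : (2 : ℝ) • p - x - ((2 : ℝ) • q - y) = (2 : ℝ) • (p - q) - (x - y) := by
    rw [smul_sub]; abel
  have e2 : ‖(2 : ℝ) • (p - q) - (x - y)‖ ^ 2 =
      4 * ‖p - q‖ ^ 2 - 4 * ⟪x - y, p - q⟫_ℝ + ‖x - y‖ ^ 2 := by
    rw [norm_sub_sq_real, norm_smul, real_inner_smul_left, real_inner_comm, Real.norm_eq_abs,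
      abs_of_pos (by norm_num : (0 : ℝ) < 2)]
    ring
  rw [e]
  refine (sq_le_sq₀ (norm_nonneg _) (norm_nonneg _)).1 ?_
  rw [e2]; linarith

lemma DR_firm {A B : Set (E d)} (hA : IsP A) (hB : IsP B) (x y : E d) :
    ‖DR A B x - DR A B y‖ ^ 2 + ‖(x - DR A B x) - (y - DR A B y)‖ ^ 2 ≤ ‖x - y‖ ^ 2 := by
  have h : ‖reflector B (reflector A x) - reflector B (reflector A y)‖ ≤ ‖x - y‖ :=
    (reflector_nonexp hB _ _).trans (reflector_nonexp hA _ _)
  unfold DR
  set p := reflector B (reflector A x)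
  set q := reflector B (reflector A y)
  have e1 : (1 / 2 : ℝ) • (x + p) - (1 / 2 : ℝ) • (y + q) =
      (1 / 2 : ℝ) • ((x - y) + (p - q)) := by module
  have e2 : (x - (1 / 2 : ℝ) • (x + p)) - (y - (1 / 2 : ℝ) • (y + q)) =
      (1 / 2 : ℝ) • ((x - y) - (p - q)) := by module
  have h2 : ‖p - q‖ ^ 2 ≤ ‖x - y‖ ^ 2 := (sq_le_sq₀ (norm_nonneg _) (norm_nonneg _)).2 h
  have h3 : ‖(1 / 2 : ℝ)‖ ^ 2 = 1 / 4 := by norm_num
  rw [e1, e2]
  generalize x - y = D at *
  generalize p - q = M at *
  rw [norm_smul, norm_smul, mul_pow, mul_pow, norm_add_sq_real, norm_sub_sq_real, h3]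
  linarith

lemma DR_eq {A B : Set (E d)} (x : E d) :
    DR A B x = x - proj A x + proj B (reflector A x) := by
  unfold DR
  have : reflector B (reflector A x) = (2 : ℝ) • proj B (reflector A x) - reflector A x := rfl
  rw [this]
  have h2 : reflector A x = (2 : ℝ) • proj A x - x := rfl
  nth_rw 2 [h2]
  module

lemma DR_continuous {A B : Set (E d)} (hA : IsP A) (hB : IsP B) : Continuous (DR A B) := by
  have h : LipschitzWith 1 (DR A B) := by
    refine LipschitzWith.of_dist_le_mul fun x y => ?_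
    rw [dist_eq_norm, dist_eq_norm, NNReal.coe_one, one_mul]
    refine (sq_le_sq₀ (norm_nonneg _) (norm_nonneg _)).1 ?_
    have := DR_firm hA hB x y
    nlinarith [sq_nonneg ‖(x - DR A B x) - (y - DR A B y)‖]
  exact h.continuous

/-- The shifted sequence. -/
noncomputable def ys (T : E d → E d) (v x : E d) (n : ℕ) : E d := T^[n] x + (n : ℝ) • v

/-- `T` is firmly nonexpansive. -/
def Firm (T : E d → E d) : Prop :=
  ∀ x y, ‖T x - T y‖ ^ 2 + ‖(x - T x) - (y - T y)‖ ^ 2 ≤ ‖x - y‖ ^ 2

lemma step {T : E d → E d} (hT : Firm T) {v y : E d} (hy : ∀ n : ℕ, T^[n] y = y - (n : ℝ) • v)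
    (x : E d) (n : ℕ) :
    ‖ys T v x (n + 1) - y‖ ^ 2 + ‖ys T v x (n + 1) - ys T v x n‖ ^ 2 ≤ ‖ys T v x n - y‖ ^ 2 := by
  have h := hT (T^[n] x) (T^[n] y)
  rw [← Function.iterate_succ_apply' T n x, ← Function.iterate_succ_apply' T n y, hy n,
    Nat.succ_eq_add_one, hy (n + 1)] at h
  have e1 : T^[n + 1] x - (y - ((n + 1 : ℕ) : ℝ) • v) = ys T v x (n + 1) - y := by
    unfold ys; abel
  have e2 : T^[n] x - (y - (n : ℝ) • v) = ys T v x n - y := by
    unfold ys; abel
  have e3 : T^[n] x - T^[n + 1] x - (y - (n : ℝ) • v - (y - ((n + 1 : ℕ) : ℝ) • v)) =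
      -(ys T v x (n + 1) - ys T v x n) := by
    unfold ys; push_cast; module
  rw [e1, e2, e3, norm_neg] at h
  exact h

lemma dist_tendsto {T : E d → E d} (hT : Firm T) {v y : E d}
    (hy : ∀ n : ℕ, T^[n] y = y - (n : ℝ) • v) (x : E d) :
    ∃ L, Tendsto (fun n => ‖ys T v x n - y‖ ^ 2) atTop (𝓝 L) := by
  have hanti : Antitone (fun n => ‖ys T v x n - y‖ ^ 2) := by
    refine antitone_nat_of_succ_le fun n => ?_
    have := step hT hy x n
    nlinarith [sq_nonneg ‖ys T v x (n + 1) - ys T v x n‖]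
  exact ⟨_, tendsto_atTop_ciInf hanti ⟨0, by rintro _ ⟨n, rfl⟩; positivity⟩⟩

lemma diff_tendsto {T : E d → E d} (hT : Firm T) {v y : E d}
    (hy : ∀ n : ℕ, T^[n] y = y - (n : ℝ) • v) (x : E d) :
    Tendsto (fun n => ys T v x (n + 1) - ys T v x n) atTop (𝓝 0) := by
  obtain ⟨L, hL⟩ := dist_tendsto hT hy x
  have h1 : Tendsto (fun n => ‖ys T v x n - y‖ ^ 2 - ‖ys T v x (n + 1) - y‖ ^ 2) atTop (𝓝 0) := by
    have := hL.sub (hL.comp (tendsto_add_atTop_nat 1))
    simpa using this
  have h2 : Tendsto (fun n => ‖ys T v x (n + 1) - ys T v x n‖ ^ 2) atTop (𝓝 0) := by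
    refine squeeze_zero (fun n => by positivity) (fun n => ?_) h1
    have := step hT hy x n
    linarith
  rw [tendsto_zero_iff_norm_tendsto_zero]
  have h3 := h2.sqrt
  simpa using h3

/-- Two close signs: a real sequence whose squares converge and whose differences tend to `0`
converges. -/
lemma sign_lemma {g : ℕ → ℝ} {c : ℝ} (h : Tendsto (fun n => g n ^ 2) atTop (𝓝 c))
    (hd : Tendsto (fun n => g (n + 1) - g n) atTop (𝓝 0)) : ∃ l, Tendsto g atTop (𝓝 l) := by
  have hc : 0 ≤ c := ge_of_tendsto' h fun n => sq_nonneg _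
  have habs : Tendsto (fun n => |g n|) atTop (𝓝 (Real.sqrt c)) := by
    have := h.sqrt
    simpa [Real.sqrt_sq_eq_abs] using this
  rcases hc.eq_or_lt with hc0 | hc0
  · refine ⟨0, ?_⟩
    rw [← hc0, Real.sqrt_zero] at habs
    exact (tendsto_zero_iff_abs_tendsto_zero g).2 habs
  · have hs : 0 < Real.sqrt c := Real.sqrt_pos.2 hc0
    have h1 : ∀ᶠ n in atTop, Real.sqrt c / 2 < |g n| :=
      habs.eventually (lt_mem_nhds (by linarith))
    have h2 : ∀ᶠ n in atTop, |g (n + 1) - g n| < Real.sqrt c / 2 := by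
      have := (tendsto_zero_iff_abs_tendsto_zero _).1 hd
      exact this.eventually (gt_mem_nhds (by linarith))
    obtain ⟨N, hN⟩ := eventually_atTop.1 (h1.and h2)
    rcases lt_or_ge 0 (g N) with hg | hg
    · have hpos : ∀ n ≥ N, 0 < g n := by
        intro n hn
        induction n, hn using Nat.le_induction with
        | base => exact hg
        | succ n hn ih =>
          obtain ⟨k1, k2⟩ := hN n hn
          rw [abs_of_pos ih] at k1
          rw [abs_lt] at k2
          linarith
      refine ⟨Real.sqrt c, habs.congr' ?_⟩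
      filter_upwards [eventually_ge_atTop N] with n hn
      exact abs_of_pos (hpos n hn)
    · have hneg : ∀ n ≥ N, g n ≤ 0 := by
        intro n hn
        induction n, hn using Nat.le_induction with
        | base => exact hg
        | succ n hn ih =>
          obtain ⟨k1, k2⟩ := hN n hn
          rw [abs_of_nonpos ih] at k1
          rw [abs_lt] at k2
          linarith
      refine ⟨-Real.sqrt c, (habs.neg).congr' ?_⟩
      filter_upwards [eventually_ge_atTop N] with n hn
      rw [abs_of_nonpos (hneg n hn), neg_neg]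

/-- The case of balls which meet. -/
lemma meet {A B : Set (E d)} (hA : IsP A) (hB : IsP B) {p : E d} (hpA : p ∈ A) (hpB : p ∈ B)
    (hAc : Convex ℝ A) (hBc : Convex ℝ B) (x : E d) :
    ∃ l, Tendsto (fun n : ℕ => (DR A B)^[n] x) atTop (𝓝 l) := by
  have hfirm : Firm (DR A B) := DR_firm hA hB
  have hcont := DR_continuous hA hB
  have fixp : ∀ y, DR A B y = y → ∀ n : ℕ, (DR A B)^[n] y = y - (n : ℝ) • (0 : E d) := by
    intro y hy n
    rw [smul_zero, sub_zero, Function.iterate_fixed hy]
  have hp : DR A B p = p := by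
    have h1 : proj A p = p := proj_eq hAc ⟨hpA, fun q _ => by simp⟩
    have h2 : proj B p = p := proj_eq hBc ⟨hpB, fun q _ => by simp⟩
    have h3 : reflector A p = p := by unfold reflector; rw [h1]; module
    rw [DR_eq, h1, h3, h2]; abel
  have hys : ∀ n, ys (DR A B) 0 x n = (DR A B)^[n] x := fun n => by unfold ys; rw [smul_zero, add_zero]
  obtain ⟨L, hL⟩ := dist_tendsto hfirm (fixp p hp) x
  have hbdd : Bornology.IsBounded (Set.range fun n => (DR A B)^[n] x) := by
    obtain ⟨M, hM⟩ := hL.bddAbove_range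
    refine (Metric.isBounded_iff_subset_closedBall p).2 ⟨Real.sqrt M, ?_⟩
    rintro _ ⟨n, rfl⟩
    rw [mem_closedBall, dist_eq_norm]
    refine Real.le_sqrt_of_sq_le ?_
    have := hM ⟨n, rfl⟩
    simpa [hys] using this
  obtain ⟨c, -, φ, hφ, hc⟩ := tendsto_subseq_of_bounded hbdd (fun n => Set.mem_range_self n)
  have hdiff := diff_tendsto hfirm (fixp p hp) x
  have hfix : DR A B c = c := by
    have h1 : Tendsto (fun n => (DR A B)^[φ n + 1] x - (DR A B)^[φ n] x) atTop (𝓝 0) := by
      have := hdiff.comp hφ.tendsto_atTop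
      simpa [hys, Function.comp_def] using this
    have h2 : Tendsto (fun n => DR A B ((DR A B)^[φ n] x) - (DR A B)^[φ n] x) atTop
        (𝓝 (DR A B c - c)) := ((hcont.tendsto c).comp hc).sub hc
    have h3 : (fun n => DR A B ((DR A B)^[φ n] x) - (DR A B)^[φ n] x) =
        fun n => (DR A B)^[φ n + 1] x - (DR A B)^[φ n] x := by
      funext n
      rw [← Function.iterate_succ_apply' (DR A B) (φ n) x]
    rw [h3] at h2
    exact sub_eq_zero.1 (tendsto_nhds_unique h2 h1)
  obtain ⟨L', hL'⟩ := dist_tendsto hfirm (fixp c hfix) x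
  have h0 : L' = 0 := by
    have h1 : Tendsto (fun n => ‖ys (DR A B) 0 x (φ n) - c‖ ^ 2) atTop (𝓝 L') :=
      hL'.comp hφ.tendsto_atTop
    have h2 : Tendsto (fun n => ‖ys (DR A B) 0 x (φ n) - c‖ ^ 2) atTop (𝓝 0) := by
      have h3 : Tendsto (fun n => (DR A B)^[φ n] x - c) atTop (𝓝 0) := by
        have := hc.sub_const c
        simpa using this
      have h4 := (h3.norm).pow 2
      simpa [hys] using h4
    exact tendsto_nhds_unique h1 h2
  refine ⟨c, ?_⟩
  rw [h0] at hL'
  have h5 := hL'.sqrt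
  simp only [Real.sqrt_sq (norm_nonneg _), Real.sqrt_zero, hys] at h5
  exact tendsto_iff_norm_sub_tendsto_zero.2 h5

/-- the plane through `a` in which the iterates stay -/
lemma plane_mem {a b : E d} {r s : ℝ} (hr : 0 ≤ r) (hs : 0 ≤ s) {W : Submodule ℝ (E d)}
    (hab : b - a ∈ W) {z : E d} (hz : z - a ∈ W) :
    DR (closedBall a r) (closedBall b s) z - a ∈ W := by
  have hPA : ∀ z, z - a ∈ W → proj (closedBall a r) z - a ∈ W := by
    intro z hz
    rw [proj_ball a hr, add_sub_cancel_left]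
    exact W.smul_mem _ hz
  have hPB : ∀ z, z - a ∈ W → proj (closedBall b s) z - a ∈ W := by
    intro z hz
    rw [proj_ball b hs]
    have : b + fac s ‖z - b‖ • (z - b) - a = (b - a) + fac s ‖z - b‖ • ((z - a) - (b - a)) := by
      rw [sub_sub_sub_cancel_right]; abel
    rw [this]
    exact W.add_mem hab (W.smul_mem _ (W.sub_mem hz hab))
  have hRA : reflector (closedBall a r) z - a ∈ W := by
    have : reflector (closedBall a r) z - a = (2 : ℝ) • (proj (closedBall a r) z - a) - (z - a) := by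
      unfold reflector; module
    rw [this]
    exact W.sub_mem (W.smul_mem _ (hPA z hz)) hz
  rw [DR_eq]
  have : z - proj (closedBall a r) z + proj (closedBall b s) (reflector (closedBall a r) z) - a =
      (z - a) - (proj (closedBall a r) z - a) +
      (proj (closedBall b s) (reflector (closedBall a r) z) - a) := by abel
  rw [this]
  exact W.add_mem (W.sub_mem hz (hPA z hz)) (hPB _ hRA)

lemma fac_mul {r N : ℝ} (hr : 0 ≤ r) (h : r ≤ N) : fac r N * N = r := by
  unfold fac
  split_ifs with h1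
  · rw [one_mul]; exact le_antisymm h1 h
  · push Not at h1
    exact div_mul_cancel₀ _ (lt_of_le_of_lt hr h1).ne'

lemma disp_mem {a b : E d} {r s : ℝ} (hr : 0 ≤ r) (hs : 0 ≤ s) {w : E d}
    (hw : w ∈ closure (Set.range fun x => x - DR (closedBall a r) (closedBall b s) x)) :
    ‖w + (b - a)‖ ≤ r + s := by
  have hcl : IsClosed {w : E d | ‖w + (b - a)‖ ≤ r + s} :=
    isClosed_le (by fun_prop) continuous_const
  refine closure_minimal ?_ hcl hw
  rintro _ ⟨x, rfl⟩
  have h1 := (isP_ball a hr x).1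
  have h2 := (isP_ball b hs (reflector (closedBall a r) x)).1
  rw [mem_closedBall, dist_eq_norm] at h1 h2
  show ‖x - DR (closedBall a r) (closedBall b s) x + (b - a)‖ ≤ r + s
  rw [DR_eq]
  have e : x - (x - proj (closedBall a r) x +
      proj (closedBall b s) (reflector (closedBall a r) x)) + (b - a) =
      (proj (closedBall a r) x - a) - (proj (closedBall b s) (reflector (closedBall a r) x) - b) := by
    abel
  rw [e]
  exact (norm_sub_le _ _).trans (add_le_add h1 h2)

/-- The minimal displacement vector when the balls meet. -/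
lemma disp_meet {a b : E d} {r s : ℝ} {p : E d}
    (hpA : p ∈ closedBall a r) (hpB : p ∈ closedBall b s) :
    IsMinDisplacement (DR (closedBall a r) (closedBall b s)) 0 := by
  have hp : DR (closedBall a r) (closedBall b s) p = p := by
    have h1 : proj (closedBall a r) p = p :=
      proj_eq (convex_closedBall a r) ⟨hpA, fun q _ => by simp⟩
    have h2 : proj (closedBall b s) p = p :=
      proj_eq (convex_closedBall b s) ⟨hpB, fun q _ => by simp⟩
    have h3 : reflector (closedBall a r) p = p := by unfold reflector; rw [h1]; module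
    rw [DR_eq, h1, h3, h2]; abel
  refine ⟨subset_closure ⟨p, by simp [hp]⟩, fun w _ => by simp⟩

section disjoint

variable {a b e : E d} {r s D : ℝ}

lemma proj_a (hr : 0 ≤ r) (he : ‖e‖ = 1) {t : ℝ} (ht : 0 ≤ t) :
    proj (closedBall a r) (a + (r + t) • e) = a + r • e := by
  rw [proj_ball a hr, add_sub_cancel_left, norm_smul, he, mul_one, Real.norm_eq_abs,
    abs_of_nonneg (by linarith), smul_smul, fac_mul hr (by linarith)]

lemma DR_ray (hr : 0 ≤ r) (hs : 0 ≤ s) (he : ‖e‖ = 1) (hb : b = a + D • e) (hD : r + s < D)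
    {t : ℝ} (ht : 0 ≤ t) :
    DR (closedBall a r) (closedBall b s) (a + (r + t) • e) =
      a + (r + (t + (D - (r + s)))) • e := by
  have h1 : reflector (closedBall a r) (a + (r + t) • e) = a + (r - t) • e := by
    unfold reflector
    rw [proj_a hr he ht]; module
  have h2 : proj (closedBall b s) (a + (r - t) • e) = a + (D - s) • e := by
    have e1 : a + (r - t) • e - b = -((D - r + t) • e) := by rw [hb]; module
    rw [proj_ball b hs, e1, norm_neg, norm_smul, he, mul_one, Real.norm_eq_abs,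
      abs_of_nonneg (by linarith), smul_neg, smul_smul, fac_mul hs (by linarith), hb]
    module
  rw [DR_eq, h1, h2, proj_a hr he ht]
  module

lemma DR_iter (hr : 0 ≤ r) (hs : 0 ≤ s) (he : ‖e‖ = 1) (hb : b = a + D • e) (hD : r + s < D)
    {t : ℝ} (ht : 0 ≤ t) (n : ℕ) :
    (DR (closedBall a r) (closedBall b s))^[n] (a + (r + t) • e) =
      a + (r + t) • e - (n : ℝ) • (-(D - (r + s)) • e) := by
  have key : ∀ n : ℕ, (DR (closedBall a r) (closedBall b s))^[n] (a + (r + t) • e) =
      a + (r + (t + n * (D - (r + s)))) • e := by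
    intro n
    induction n with
    | zero => simp
    | succ n ih =>
      rw [Function.iterate_succ_apply', ih, DR_ray hr hs he hb hD]
      · push_cast; congr 2; ring
      · have : 0 ≤ (n : ℝ) * (D - (r + s)) := mul_nonneg (Nat.cast_nonneg n) (by linarith)
        linarith
  rw [key]
  module

lemma disp_disjoint (hr : 0 ≤ r) (hs : 0 ≤ s) (he : ‖e‖ = 1) (hb : b = a + D • e)
    (hD : r + s < D) :
    IsMinDisplacement (DR (closedBall a r) (closedBall b s)) (-(D - (r + s)) • e) := by
  have hD0 : 0 < D := by linarith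
  refine ⟨subset_closure ⟨a + (r + 0) • e, ?_⟩, ?_⟩
  · show a + (r + 0) • e - DR (closedBall a r) (closedBall b s) (a + (r + 0) • e) = _
    rw [DR_ray hr hs he hb hD le_rfl]; module
  · intro w hw
    have h := disp_mem hr hs hw
    have e1 : b - a = D • e := by rw [hb]; abel
    rw [e1] at h
    have h2 : ‖D • e‖ ≤ ‖w + D • e‖ + ‖w‖ := by
      have : D • e = (w + D • e) - w := by abel
      calc ‖D • e‖ = ‖(w + D • e) - w‖ := by rw [← this]
        _ ≤ _ := norm_sub_le _ _
    rw [norm_smul, he, mul_one, Real.norm_eq_abs, abs_of_pos hD0] at h2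
    rw [norm_smul, he, mul_one, Real.norm_eq_abs, abs_neg, abs_of_pos (by linarith)]
    linarith

lemma disp_unique (hr : 0 ≤ r) (hs : 0 ≤ s) (he : ‖e‖ = 1) (hb : b = a + D • e)
    (hD : r + s < D) {v : E d}
    (hv : IsMinDisplacement (DR (closedBall a r) (closedBall b s)) v) :
    v = -(D - (r + s)) • e := by
  have h0 := disp_disjoint hr hs he hb hD
  have h1 := hv.2 _ h0.1
  have h2 := disp_mem hr hs hv.1
  have e1 : b - a = D • e := by rw [hb]; abel
  rw [e1] at h2
  rw [norm_smul, he, mul_one, Real.norm_eq_abs, abs_neg, abs_of_pos (by linarith)] at h1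
  have h3 : ‖v‖ ^ 2 ≤ (D - (r + s)) ^ 2 := by
    have := norm_nonneg v
    nlinarith
  have h4 : ‖v + D • e‖ ^ 2 ≤ (r + s) ^ 2 := by
    have := norm_nonneg (v + D • e)
    nlinarith
  rw [norm_add_sq_real, real_inner_smul_right, norm_smul, he, mul_one, Real.norm_eq_abs,
    sq_abs] at h4
  have h5 : ‖v + (D - (r + s)) • e‖ ^ 2 ≤ 0 := by
    rw [norm_add_sq_real, real_inner_smul_right, norm_smul, he, mul_one, Real.norm_eq_abs,
      sq_abs]
    have hD0 : 0 < D := by linarith
    have hk : 0 < D - (r + s) := by linarith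
    -- `‖v‖² + 2 D ⟪v,e⟫ + D² ≤ ρ²` and `‖v‖² ≤ (D-ρ)²`
    have h6 : D * (‖v‖ ^ 2 + 2 * ((D - (r + s)) * ⟪v, e⟫_ℝ) + (D - (r + s)) ^ 2) ≤ 0 := by
      have h7 : (D - (r + s)) * (‖v‖ ^ 2 + 2 * (D * ⟪v, e⟫_ℝ) + D ^ 2) ≤
          (D - (r + s)) * (r + s) ^ 2 := mul_le_mul_of_nonneg_left h4 hk.le
      have h8 : (r + s) * ‖v‖ ^ 2 ≤ (r + s) * (D - (r + s)) ^ 2 :=
        mul_le_mul_of_nonneg_left h3 (by linarith)
      nlinarith
    by_contra hcon
    push Not at hcon
    have := mul_pos hD0 hcon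
    linarith
  have h6 : ‖v + (D - (r + s)) • e‖ = 0 := by
    have := norm_nonneg (v + (D - (r + s)) • e)
    nlinarith
  have h7 := norm_eq_zero.1 h6
  rw [neg_smul]
  exact eq_neg_of_add_eq_zero_left h7

/-- The case of disjoint balls. -/
lemma disjoint_case (hr : 0 ≤ r) (hs : 0 ≤ s) (he : ‖e‖ = 1) (hb : b = a + D • e)
    (hD : r + s < D) (x : E d) :
    ∃ l, Tendsto (fun n : ℕ => (DR (closedBall a r) (closedBall b s))^[n] x +
      (n : ℝ) • (-(D - (r + s)) • e)) atTop (𝓝 l) := by
  set T := DR (closedBall a r) (closedBall b s) with hTdef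
  set v : E d := -(D - (r + s)) • e with hv
  have hfirm : Firm T := DR_firm (isP_ball a hr) (isP_ball b hs)
  set f : E d := a + (r + 0) • e with hf
  have hf0 : ∀ n : ℕ, T^[n] f = f - (n : ℝ) • v := DR_iter hr hs he hb hD le_rfl
  have hf1 : ∀ n : ℕ, T^[n] (a + (r + 1) • e) = a + (r + 1) • e - (n : ℝ) • v :=
    DR_iter hr hs he hb hD zero_le_one
  have hfe : a + (r + 1) • e = f + e := by rw [hf]; module
  rw [hfe] at hf1
  obtain ⟨L0, hL0⟩ := dist_tendsto hfirm hf0 x
  obtain ⟨L1, hL1⟩ := dist_tendsto hfirm hf1 x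
  have hdiff := diff_tendsto hfirm hf0 x
  -- component along the axis
  set y := ys T v x with hy
  have hee : ⟪e, e⟫_ℝ = 1 := by rw [real_inner_self_eq_norm_sq, he]; norm_num
  have hcomp : ∀ n, ⟪y n - f, e⟫_ℝ = (‖y n - f‖ ^ 2 - ‖y n - (f + e)‖ ^ 2 + 1) / 2 := by
    intro n
    have : y n - (f + e) = (y n - f) - e := by abel
    rw [this, norm_sub_sq_real (y n - f) e, he]; ring
  have hα : Tendsto (fun n => ⟪y n - f, e⟫_ℝ) atTop (𝓝 ((L0 - L1 + 1) / 2)) := by
    simp only [hcomp]
    exact ((hL0.sub hL1).add_const 1).div_const 2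
  -- the direction orthogonal to the axis
  set w : E d := (x - a) - ⟪x - a, e⟫_ℝ • e with hw
  have hwe : ⟪w, e⟫_ℝ = 0 := by
    rw [hw, inner_sub_left, real_inner_smul_left, hee]; ring
  set W : Submodule ℝ (E d) := Submodule.span ℝ {e, w} with hW
  have heW : e ∈ W := Submodule.subset_span (by simp)
  have hwW : w ∈ W := Submodule.subset_span (by simp)
  have hab : b - a ∈ W := by
    have : b - a = D • e := by rw [hb]; abel
    rw [this]; exact W.smul_mem _ heW
  have hxW : x - a ∈ W := by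
    have : x - a = w + ⟪x - a, e⟫_ℝ • e := by rw [hw]; abel
    rw [this]; exact W.add_mem hwW (W.smul_mem _ heW)
  have hiter : ∀ n : ℕ, T^[n] x - a ∈ W := by
    intro n
    induction n with
    | zero => simpa using hxW
    | succ n ih =>
      rw [Function.iterate_succ_apply']
      exact plane_mem hr hs hab ih
  have hyW : ∀ n, y n - f ∈ W := by
    intro n
    have : y n - f = (T^[n] x - a) + (n : ℝ) • v - (r + 0) • e := by
      rw [hy, hf]; unfold ys; abel
    rw [this, hv]
    exact W.sub_mem (W.add_mem (hiter n) (W.smul_mem _ (W.smul_mem _ heW))) (W.smul_mem _ heW)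
  have hdec : ∀ n, y n - f = ⟪y n - f, e⟫_ℝ • e + (⟪y n - f, w⟫_ℝ / ‖w‖ ^ 2) • w := by
    intro n
    obtain ⟨α, β, hαβ⟩ := Submodule.mem_span_pair.1 (hyW n)
    rw [← hαβ, inner_add_left, inner_add_left, real_inner_smul_left, real_inner_smul_left,
      real_inner_smul_left, real_inner_smul_left, hee, hwe, real_inner_comm w e, hwe,
      real_inner_self_eq_norm_sq]
    by_cases hw0 : w = 0
    · simp [hw0]
    · have : ‖w‖ ^ 2 ≠ 0 := by
        have := norm_pos_iff.2 hw0
        positivity
      rw [mul_one, mul_zero, mul_zero, add_zero, zero_add, mul_div_assoc, div_self this, mul_one]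
  -- the component along `w`
  have hg2 : ∀ n, ⟪y n - f, w⟫_ℝ ^ 2 =
      (‖y n - f‖ ^ 2 - ⟪y n - f, e⟫_ℝ ^ 2) * ‖w‖ ^ 2 := by
    intro n
    by_cases hw0 : w = 0
    · simp [hw0]
    have hw1 : ‖w‖ ^ 2 ≠ 0 := by
      have := norm_pos_iff.2 hw0
      positivity
    have h1 : ‖y n - f‖ ^ 2 = ⟪y n - f, e⟫_ℝ ^ 2 + ⟪y n - f, w⟫_ℝ ^ 2 / ‖w‖ ^ 2 := by
      conv_lhs => rw [hdec n]
      rw [norm_add_sq_real, real_inner_smul_left, real_inner_smul_right, real_inner_comm w e, hwe,
        norm_smul, norm_smul, he, mul_one, Real.norm_eq_abs, Real.norm_eq_abs, sq_abs, mul_pow,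
        sq_abs]
      field_simp
      ring
    rw [h1]
    field_simp
    ring
  have hg : Tendsto (fun n => ⟪y n - f, w⟫_ℝ ^ 2) atTop
      (𝓝 ((L0 - ((L0 - L1 + 1) / 2) ^ 2) * ‖w‖ ^ 2)) := by
    simp only [hg2]
    exact (hL0.sub (hα.pow 2)).mul_const _
  have hgd : Tendsto (fun n => ⟪y (n + 1) - f, w⟫_ℝ - ⟪y n - f, w⟫_ℝ) atTop (𝓝 0) := by
    have h1 : ∀ n, ⟪y (n + 1) - f, w⟫_ℝ - ⟪y n - f, w⟫_ℝ = ⟪y (n + 1) - y n, w⟫_ℝ := by
      intro n
      rw [← inner_sub_left]; congr 1; abel
    simp only [h1]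
    have : Tendsto (fun n => ⟪y (n + 1) - y n, w⟫_ℝ) atTop (𝓝 ⟪(0 : E d), w⟫_ℝ) :=
      hdiff.inner tendsto_const_nhds
    simpa using this
  obtain ⟨g, hg'⟩ := sign_lemma hg hgd
  refine ⟨f + (((L0 - L1 + 1) / 2) • e + (g / ‖w‖ ^ 2) • w), ?_⟩
  have hfin : ∀ n : ℕ, T^[n] x + (n : ℝ) • v =
      f + (⟪y n - f, e⟫_ℝ • e + (⟪y n - f, w⟫_ℝ / ‖w‖ ^ 2) • w) := by
    intro n
    rw [← hdec n]
    show y n = _
    abel
  simp only [hfin]
  exact (((hα.smul_const e).add ((hg'.div_const _).smul_const w))).const_add f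

end disjoint

end general

/-- **Shifted Douglas-Rachford iterates for two balls converge.** For any two closed balls `A`, `B`
of a Euclidean space the Douglas-Rachford operator `T` has a unique minimal displacement vector `v`,
and `T^n x + n v` converges for every `x`. (For `d = 3` this is the question.) -/
theorem result (d : ℕ) (a b : E d) (r s : ℝ) (hr : 0 ≤ r) (hs : 0 ≤ s) :
    ∃ v : E d, (∀ w : E d, IsMinDisplacement (DR (closedBall a r) (closedBall b s)) w ↔ w = v) ∧
      ∀ x : E d, ∃ l : E d,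
        Tendsto (fun n : ℕ => (DR (closedBall a r) (closedBall b s))^[n] x + (n : ℝ) • v)
          atTop (𝓝 l) := by
  rcases le_or_gt (‖b - a‖) (r + s) with h | h
  · -- the balls meet
    have hm : ∃ p, p ∈ closedBall a r ∧ p ∈ closedBall b s := by
      rcases eq_or_ne (r + s) 0 with h0 | h0
      · have hr0 : r = 0 := by linarith
        have hs0 : s = 0 := by linarith
        have : b - a = 0 := by
          rw [h0] at h
          exact norm_le_zero_iff.1 h
        refine ⟨a, by simp [hr0], ?_⟩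
        rw [sub_eq_zero.1 this]; simp [hs0]
      · have hpos : 0 < r + s := lt_of_le_of_ne (by linarith) h0.symm
        refine ⟨a + (r / (r + s)) • (b - a), ?_, ?_⟩
        · rw [mem_closedBall, dist_eq_norm, add_sub_cancel_left, norm_smul, Real.norm_eq_abs,
            abs_of_nonneg (by positivity), div_mul_eq_mul_div, div_le_iff₀ hpos]
          exact mul_le_mul_of_nonneg_left h hr
        · have e1 : a + (r / (r + s)) • (b - a) - b = -((s / (r + s)) • (b - a)) := by
            have : s / (r + s) = 1 - r / (r + s) := by field_simp; ring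
            rw [this]; module
          rw [mem_closedBall, dist_eq_norm, e1, norm_neg, norm_smul, Real.norm_eq_abs,
            abs_of_nonneg (by positivity), div_mul_eq_mul_div, div_le_iff₀ hpos]
          exact mul_le_mul_of_nonneg_left h hs
    obtain ⟨p, hp1, hp2⟩ := hm
    have h0 := disp_meet hp1 hp2
    refine ⟨0, fun w => ⟨fun hw => ?_, fun hw => hw ▸ h0⟩, fun x => ?_⟩
    · have := hw.2 _ h0.1
      rw [norm_zero] at this
      exact norm_le_zero_iff.1 this
    · obtain ⟨l, hl⟩ := meet (isP_ball a hr) (isP_ball b hs) hp1 hp2 (convex_closedBall a r)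
        (convex_closedBall b s) x
      exact ⟨l, by simpa using hl⟩
  · -- the balls are disjoint
    have hD : 0 < ‖b - a‖ := lt_of_le_of_lt (by linarith) h
    have he : ‖(‖b - a‖⁻¹ • (b - a))‖ = 1 := by
      rw [norm_smul, norm_inv, norm_norm, inv_mul_cancel₀ hD.ne']
    have hb : b = a + ‖b - a‖ • (‖b - a‖⁻¹ • (b - a)) := by
      rw [smul_smul, mul_inv_cancel₀ hD.ne', one_smul]; abel
    exact ⟨_, fun w => ⟨fun hw => disp_unique hr hs he hb h hw,
      fun hw => hw ▸ disp_disjoint hr hs he hb h⟩, disjoint_case hr hs he hb h⟩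

end Pool.Agent.Results.MP_ef197a_an.TwoBalls
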